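import Mathlib

/-!
# Project FD (MP_ef6a16_nt), gap theorem, route 2: many sets with the same power sums, and the
# polynomials `∏_{n ∈ I} g(nX)` with their shift identities mod `p`

* `exists_family`: if `B^(3r²) S ≤ 2^B` then there are `S` subsets of `[1,B]` with the same power
  sums of the exponents `1, …, r`;
* `gg p = ∏_{j ≤ (p-1)/2} (1 + x/j)`, `gg(A+w) ∏_{i<A}(2w+2i+2) = gg(w) ∏_{i<A}(2w+2i+1)`;
* `GI_congr`: `∏_{n∈I} gg(nX) ≡ ∏_{n∈J} gg(nX) mod X^e` if the power sums agree whenever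
  `∑_{j ≤ (p-1)/2} j^{-k} ≠ 0`.
-/

namespace H8FD

open Polynomial

theorem exists_family (r B S : ℕ) (hr : 1 ≤ r) (hB : 2 ≤ B)
    (h : B ^ (3 * r ^ 2) * S ≤ 2 ^ B) :
    ∃ F : Finset (Finset ℕ), F.card = S ∧ (∀ I ∈ F, I ⊆ Finset.Icc 1 B) ∧
      ∀ I ∈ F, ∀ J ∈ F, ∀ j, 1 ≤ j → j ≤ r → ∑ n ∈ I, n ^ j = ∑ n ∈ J, n ^ j := by
  classical
  -- the vectors of power sums
  let F : Finset ℕ → (Fin r → ℕ) := fun I i => ∑ l ∈ I, l ^ ((i : ℕ) + 1)
  let T : Finset (Fin r → ℕ) := Fintype.piFinset fun i => Finset.range (B ^ ((i : ℕ) + 3))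
  have hmaps : ∀ I ∈ (Finset.Icc 1 B).powerset, F I ∈ T := by
    intro I hI
    rw [Finset.mem_powerset] at hI
    rw [Fintype.mem_piFinset]
    intro i
    rw [Finset.mem_range]
    calc ∑ l ∈ I, l ^ ((i : ℕ) + 1) ≤ ∑ l ∈ Finset.Icc 1 B, l ^ ((i : ℕ) + 1) :=
          Finset.sum_le_sum_of_subset hI
      _ ≤ ∑ _l ∈ Finset.Icc 1 B, B ^ ((i : ℕ) + 1) :=
          Finset.sum_le_sum fun l hl => Nat.pow_le_pow_left (Finset.mem_Icc.mp hl).2 _
      _ = B ^ ((i : ℕ) + 2) := by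
          rw [Finset.sum_const, Nat.card_Icc, smul_eq_mul, Nat.add_sub_cancel, pow_succ B (_ + 1),
            mul_comm]
      _ < B ^ ((i : ℕ) + 3) := Nat.pow_lt_pow_right (by omega) (by omega)
  have hTpos : 0 < T.card := by
    refine Finset.card_pos.mpr ⟨F ∅, hmaps ∅ (by simp)⟩
  have hcardT : T.card * S ≤ (Finset.Icc 1 B).powerset.card := by
    rw [Finset.card_powerset, Nat.card_Icc, Nat.add_sub_cancel]
    refine le_trans (Nat.mul_le_mul_right S ?_) h
    rw [Fintype.card_piFinset]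
    simp only [Finset.card_range]
    rw [Finset.prod_pow_eq_pow_sum]
    refine Nat.pow_le_pow_right (by omega) ?_
    calc ∑ i : Fin r, ((i : ℕ) + 3) ≤ ∑ _i : Fin r, (r + 2) :=
          Finset.sum_le_sum fun i _ => by have := i.2; omega
      _ = r * (r + 2) := by simp
      _ ≤ 3 * r ^ 2 := by nlinarith
  have hTne : T.Nonempty := Finset.card_pos.mp hTpos
  obtain ⟨y, _, hy⟩ := Finset.exists_le_card_fiber_of_mul_le_card_of_maps_to hmaps hTne hcardT
  obtain ⟨F', hF', hF'c⟩ := Finset.exists_subset_card_eq hy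
  refine ⟨F', hF'c, ?_, ?_⟩
  · intro I hI
    have := hF' hI
    rw [Finset.mem_filter, Finset.mem_powerset] at this
    exact this.1
  · intro I hI J hJ j hj1 hjr
    have h1 := hF' hI
    have h2 := hF' hJ
    rw [Finset.mem_filter] at h1 h2
    have h3 := congrFun (h1.2.trans h2.2.symm) ⟨j - 1, by omega⟩
    simp only [F] at h3
    rwa [Nat.sub_add_cancel hj1] at h3

/-- `r^9 ≤ 2^(r-1)` for `r ≥ 64` -/
lemma pow_nine_le (r : ℕ) (hr : 64 ≤ r) : r ^ 9 ≤ 2 ^ (r - 1) := by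
  induction r, hr using Nat.le_induction with
  | base => norm_num
  | succ r hr ih =>
      have h1 : (r + 1) ^ 9 ≤ 2 * r ^ 9 := by
        have h2 : 64 * (r + 1) ≤ 65 * r := by omega
        have h3 : (64 * (r + 1)) ^ 9 ≤ (65 * r) ^ 9 := Nat.pow_le_pow_left h2 9
        rw [mul_pow, mul_pow] at h3
        have h4 : (65 : ℕ) ^ 9 ≤ 2 * 64 ^ 9 := by norm_num
        have h5 : 64 ^ 9 * (r + 1) ^ 9 ≤ 64 ^ 9 * (2 * r ^ 9) :=
          calc 64 ^ 9 * (r + 1) ^ 9 ≤ 65 ^ 9 * r ^ 9 := h3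
            _ ≤ (2 * 64 ^ 9) * r ^ 9 := Nat.mul_le_mul_right _ h4
            _ = 64 ^ 9 * (2 * r ^ 9) := by ring
        exact Nat.le_of_mul_le_mul_left h5 (by norm_num)
      calc (r + 1) ^ 9 ≤ 2 * r ^ 9 := h1
        _ ≤ 2 * 2 ^ (r - 1) := Nat.mul_le_mul_left _ ih
        _ = 2 ^ (r + 1 - 1) := by
            rw [← pow_succ']
            congr 1
            omega

/-- the numerical hypothesis of `exists_family` for `B = r^3` and any `S ≤ 2^(r²)` -/
lemma family_num (r S : ℕ) (hr : 64 ≤ r) (hS : S ≤ 2 ^ (r ^ 2)) :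
    (r ^ 3) ^ (3 * r ^ 2) * S ≤ 2 ^ (r ^ 3) := by
  have h1 : (r ^ 3) ^ (3 * r ^ 2) = (r ^ 9) ^ (r ^ 2) := by
    rw [← pow_mul, ← pow_mul]
    congr 1
    ring
  have h2 : (r ^ 9) ^ (r ^ 2) ≤ (2 ^ (r - 1)) ^ (r ^ 2) := Nat.pow_le_pow_left (pow_nine_le r hr) _
  calc (r ^ 3) ^ (3 * r ^ 2) * S ≤ (2 ^ (r - 1)) ^ (r ^ 2) * 2 ^ (r ^ 2) := by
        rw [h1]
        exact Nat.mul_le_mul h2 hS
    _ = 2 ^ (r ^ 3) := by
        rw [← pow_mul, ← pow_add]
        congr 1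
        obtain ⟨k, rfl⟩ : ∃ k, r = k + 1 := ⟨r - 1, by omega⟩
        rw [Nat.add_sub_cancel]
        ring

/-- for `r ≥ 64` and `S ≤ 2^(r²)` there are `S` subsets of `[1, r^3]` with the same power sums of
exponents `1, …, r` -/
theorem exists_family_cube (r S : ℕ) (hr : 64 ≤ r) (hS : S ≤ 2 ^ (r ^ 2)) :
    ∃ F : Finset (Finset ℕ), F.card = S ∧ (∀ I ∈ F, I ⊆ Finset.Icc 1 (r ^ 3)) ∧
      ∀ I ∈ F, ∀ J ∈ F, ∀ j, 1 ≤ j → j ≤ r → ∑ n ∈ I, n ^ j = ∑ n ∈ J, n ^ j := by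
  refine exists_family r (r ^ 3) S (by omega) ?_ (family_num r S hr hS)
  calc 2 ≤ r := by omega
    _ ≤ r ^ 3 := Nat.le_self_pow (by norm_num) r

/-! ## the polynomials -/

/-- `g(x) = ∏_{j ≤ (p-1)/2} (1 + x/j)` -/
noncomputable def gg (p : ℕ) [Fact p.Prime] : (ZMod p)[X] :=
  ∏ j ∈ Finset.Icc 1 ((p - 1) / 2), (1 + C ((j : ZMod p)⁻¹) * X)

/-- `G_I(x) = ∏_{n ∈ I} g(nx)` -/
noncomputable def GI (p : ℕ) [Fact p.Prime] (I : Finset ℕ) : (ZMod p)[X] :=
  ∏ n ∈ I, (gg p).comp ((n : (ZMod p)[X]) * X)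

/-- `S_k = ∑_{j ≤ (p-1)/2} j^{-k}` -/
def SS (p k : ℕ) [Fact p.Prime] : ZMod p :=
  ∑ j ∈ Finset.Icc 1 ((p - 1) / 2), ((j : ZMod p)⁻¹) ^ k

/-- `g(w)` shifted by one, before normalisation: `G(w+1) (2w+2) = (2w+1) G(w)`,
`G(w) = ∏_{j ≤ H} (j + w)`, `2H + 1 = 0` -/
lemma gstep {A : Type*} [CommRing A] (H : ℕ) (hH : (2 * (H : A) + 1) = 0) (w : A) :
    (∏ j ∈ Finset.Icc 1 H, ((j : A) + (w + 1))) * (2 * w + 2)
      = (2 * w + 1) * ∏ j ∈ Finset.Icc 1 H, ((j : A) + w) := by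
  have h1 : ∀ n : ℕ, (∏ j ∈ Finset.Icc 1 n, ((j : A) + (w + 1))) * (w + 1)
      = (∏ j ∈ Finset.Icc 1 n, ((j : A) + w)) * ((n : A) + 1 + w) := by
    intro n
    induction n with
    | zero => simp; ring
    | succ n ih =>
        rw [Finset.prod_Icc_succ_top (by omega), Finset.prod_Icc_succ_top (by omega)]
        push_cast
        linear_combination ((n : A) + 1 + (w + 1)) * ih
  have h3 := h1 H
  linear_combination 2 * h3 + (∏ j ∈ Finset.Icc 1 H, ((j : A) + w)) * hH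

section

variable (p : ℕ) [hp : Fact p.Prime]

lemma gg_eq : gg p = C (((((p - 1) / 2).factorial : ℕ) : ZMod p)⁻¹) *
    ∏ j ∈ Finset.Icc 1 ((p - 1) / 2), ((j : (ZMod p)[X]) + X) := by
  have hne : ∀ j ∈ Finset.Icc 1 ((p - 1) / 2), ((j : ℕ) : ZMod p) ≠ 0 := by
    intro j hj h0
    rw [Finset.mem_Icc] at hj
    have := (ZMod.natCast_eq_zero_iff j p).mp h0
    have := Nat.le_of_dvd (by omega) this
    have := hp.out.two_le
    omega
  have h1 : ((((p - 1) / 2).factorial : ℕ) : ZMod p)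
      = ∏ j ∈ Finset.Icc 1 ((p - 1) / 2), ((j : ℕ) : ZMod p) := by
    generalize (p - 1) / 2 = n
    induction n with
    | zero => simp
    | succ n ih =>
        rw [Finset.prod_Icc_succ_top (by omega), ← ih, Nat.factorial_succ]
        push_cast
        ring
  rw [h1, ← Finset.prod_inv_distrib, map_prod, ← Finset.prod_mul_distrib, gg]
  refine Finset.prod_congr rfl fun j hj => ?_
  have h3 : C (((j : ℕ) : ZMod p)⁻¹) * ((j : ℕ) : (ZMod p)[X]) = 1 := by
    rw [← C_eq_natCast, ← C_mul, inv_mul_cancel₀ (hne j hj), C_1]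
  rw [mul_add, h3]

lemma half (h2 : p ≠ 2) : (2 * (((p - 1) / 2 : ℕ) : (ZMod p)[X]) + 1) = 0 := by
  have h3 := hp.out.eq_two_or_odd'
  have h4 : 2 * ((p - 1) / 2) + 1 = p := by
    rcases h3 with h | h
    · exact absurd h h2
    · obtain ⟨m, hm⟩ := h
      omega
  have h5 : ((2 * ((p - 1) / 2) + 1 : ℕ) : (ZMod p)[X]) = 0 := by
    rw [h4]
    exact CharP.cast_eq_zero _ p
  exact_mod_cast h5

lemma gg_step (h2 : p ≠ 2) (w : (ZMod p)[X]) :
    (gg p).comp (w + 1) * (2 * w + 2) = (2 * w + 1) * (gg p).comp w := by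
  have h1 : ∀ v : (ZMod p)[X], (gg p).comp v = C (((((p - 1) / 2).factorial : ℕ) : ZMod p)⁻¹) *
      ∏ j ∈ Finset.Icc 1 ((p - 1) / 2), ((j : (ZMod p)[X]) + v) := by
    intro v
    rw [gg_eq p, mul_comp, C_comp, prod_comp]
    congr 1
    refine Finset.prod_congr rfl fun j _ => ?_
    simp
  rw [h1, h1]
  have := gstep ((p - 1) / 2) (half p h2) w
  linear_combination C (((((p - 1) / 2).factorial : ℕ) : ZMod p)⁻¹) * this

/-- `g(A+w) ∏_{i<A}(2w+2i+2) = g(w) ∏_{i<A}(2w+2i+1)` for every polynomial `w` -/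
theorem gg_shift (h2 : p ≠ 2) (w : (ZMod p)[X]) (A : ℕ) :
    (gg p).comp (A + w) * ∏ i ∈ Finset.range A, (2 * w + (2 * (i : (ZMod p)[X]) + 2))
      = (gg p).comp w * ∏ i ∈ Finset.range A, (2 * w + (2 * (i : (ZMod p)[X]) + 1)) := by
  induction A with
  | zero => simp
  | succ A ih =>
      rw [Finset.prod_range_succ, Finset.prod_range_succ]
      have h3 := gg_step p h2 (A + w)
      have h4 : ((A + 1 : ℕ) : (ZMod p)[X]) + w = A + w + 1 := by push_cast; ring
      rw [h4]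
      linear_combination (∏ i ∈ Finset.range A, (2 * w + (2 * (i : (ZMod p)[X]) + 2))) * h3
        + (2 * w + (2 * A + 1)) * ih

/-- **The node identity**: `G_I(a+y) ∏_{n∈I} ∏_{i<na}(2ny+2i+2) = G_I(y) ∏_{n∈I} ∏_{i<na}(2ny+2i+1)` -/
theorem GI_shift (h2 : p ≠ 2) (I : Finset ℕ) (a : ℕ) :
    (GI p I).comp (X + (a : (ZMod p)[X])) *
        ∏ n ∈ I, ∏ i ∈ Finset.range (n * a),
          (2 * ((n : (ZMod p)[X]) * X) + (2 * (i : (ZMod p)[X]) + 2))
      = GI p I * ∏ n ∈ I, ∏ i ∈ Finset.range (n * a),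
          (2 * ((n : (ZMod p)[X]) * X) + (2 * (i : (ZMod p)[X]) + 1)) := by
  rw [GI, prod_comp, ← Finset.prod_mul_distrib, ← Finset.prod_mul_distrib]
  refine Finset.prod_congr rfl fun n _ => ?_
  rw [← gg_shift p h2, comp_assoc]
  congr 2
  simp only [mul_comp, natCast_comp, X_comp]
  push_cast
  ring

lemma gg_natDegree_le : (gg p).natDegree ≤ (p - 1) / 2 := by
  have h1 := natDegree_prod_le (Finset.Icc 1 ((p - 1) / 2))
    (fun j => (1 + C (((j : ℕ) : ZMod p)⁻¹) * X : (ZMod p)[X]))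
  refine le_trans h1 ?_
  calc ∑ j ∈ Finset.Icc 1 ((p - 1) / 2), (1 + C (((j : ℕ) : ZMod p)⁻¹) * X : (ZMod p)[X]).natDegree
      ≤ ∑ _j ∈ Finset.Icc 1 ((p - 1) / 2), 1 := by
        refine Finset.sum_le_sum fun j _ => ?_
        compute_degree
    _ = (p - 1) / 2 := by simp

theorem GI_natDegree_le (I : Finset ℕ) : (GI p I).natDegree ≤ I.card * ((p - 1) / 2) := by
  refine le_trans (natDegree_prod_le _ _) ?_
  calc ∑ n ∈ I, ((gg p).comp ((n : (ZMod p)[X]) * X)).natDegree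
      ≤ ∑ _n ∈ I, (p - 1) / 2 := by
        refine Finset.sum_le_sum fun n _ => ?_
        refine le_trans natDegree_comp_le ?_
        calc (gg p).natDegree * ((n : (ZMod p)[X]) * X).natDegree ≤ (p - 1) / 2 * 1 := by
              refine Nat.mul_le_mul (gg_natDegree_le p) ?_
              rw [← C_eq_natCast]
              compute_degree
          _ = (p - 1) / 2 := mul_one _
    _ = I.card * ((p - 1) / 2) := by simp

lemma gg_coeff_zero : (gg p).coeff 0 = 1 := by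
  rw [gg, coeff_zero_prod]
  simp

lemma GI_coeff_zero (I : Finset ℕ) : (GI p I).coeff 0 = 1 := by
  rw [GI, coeff_zero_prod]
  refine Finset.prod_eq_one fun n _ => ?_
  rw [coeff_zero_eq_eval_zero, eval_comp]
  simp [← coeff_zero_eq_eval_zero, gg_coeff_zero]

end

/-! ## logarithmic derivative -/

/-- `Q = ∏ (1 + ρ_i X)` satisfies `Q' ≡ Q ∑_{k<K} (-1)^k p_{k+1} X^k mod X^K` -/
lemma logder {F ι : Type*} [Field F] [DecidableEq ι] (s : Finset ι) (ρ : ι → F) (K : ℕ) :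
    (X : F[X]) ^ K ∣ derivative (∏ i ∈ s, (1 + C (ρ i) * X)) -
      (∏ i ∈ s, (1 + C (ρ i) * X)) *
        ∑ k ∈ Finset.range K, C ((-1) ^ k * ∑ i ∈ s, ρ i ^ (k + 1)) * X ^ k := by
  have h1 : ∑ k ∈ Finset.range K, C ((-1) ^ k * ∑ i ∈ s, ρ i ^ (k + 1)) * (X : F[X]) ^ k
      = ∑ i ∈ s, C (ρ i) * ∑ k ∈ Finset.range K, (-(C (ρ i) * X)) ^ k := by
    simp_rw [Finset.mul_sum]
    rw [Finset.sum_comm]
    refine Finset.sum_congr rfl fun k _ => ?_
    rw [map_sum, Finset.sum_mul]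
    refine Finset.sum_congr rfl fun i _ => ?_
    rw [C_mul, C_pow, C_pow, C_neg, C_1, neg_pow (C (ρ i) * X), mul_pow, pow_succ]
    ring
  rw [h1, derivative_prod_finset, Finset.mul_sum, ← Finset.sum_sub_distrib]
  refine Finset.dvd_sum fun i hi => ?_
  have h2 : derivative (1 + C (ρ i) * X : F[X]) = C (ρ i) := by simp
  have h3 : ∏ j ∈ s, (1 + C (ρ j) * X : F[X])
      = (1 + C (ρ i) * X) * ∏ j ∈ s.erase i, (1 + C (ρ j) * X) :=
    (Finset.mul_prod_erase s _ hi).symm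
  have h4 : (1 + C (ρ i) * X : F[X]) * ∑ k ∈ Finset.range K, (-(C (ρ i) * X)) ^ k
      = 1 - (-(C (ρ i) * X)) ^ K := by
    have := mul_neg_geom_sum (-(C (ρ i) * X) : F[X]) K
    linear_combination this
  rw [h2, h3]
  have h5 : (∏ j ∈ s.erase i, (1 + C (ρ j) * X : F[X])) * C (ρ i) -
      (1 + C (ρ i) * X) * (∏ j ∈ s.erase i, (1 + C (ρ j) * X)) *
        (C (ρ i) * ∑ k ∈ Finset.range K, (-(C (ρ i) * X)) ^ k)
      = X ^ K * ((∏ j ∈ s.erase i, (1 + C (ρ j) * X : F[X])) * C (ρ i) * (-C (ρ i)) ^ K) := by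
    have h6 : (-(C (ρ i) * X : F[X])) ^ K = (-C (ρ i)) ^ K * X ^ K := by
      rw [← mul_pow, neg_mul]
    rw [h6] at h4
    linear_combination (-(∏ j ∈ s.erase i, (1 + C (ρ j) * X : F[X])) * C (ρ i)) * h4
  rw [h5]
  exact dvd_mul_right _ _

/-- two polynomials `Q, R` with the same constant term and the same logarithmic derivative mod
`X^(e-1)` agree mod `X^e` (if `e ≤ p`) -/
lemma congr_of_logder {F : Type*} [Field F] (p : ℕ) [CharP F p] (e : ℕ) (he : e ≤ p)
    (Q R D : F[X]) (h0 : Q.coeff 0 = R.coeff 0)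
    (hQ : X ^ (e - 1) ∣ derivative Q - Q * D) (hR : X ^ (e - 1) ∣ derivative R - R * D) :
    X ^ e ∣ Q - R := by
  have h1 : (X : F[X]) ^ (e - 1) ∣ derivative (Q - R) - (Q - R) * D := by
    have := dvd_sub hQ hR
    rw [derivative_sub]
    convert this using 1
    ring
  rw [X_pow_dvd_iff] at h1 ⊢
  intro d
  induction d using Nat.strong_induction_on with
  | _ d ih =>
    intro hd
    rcases Nat.eq_zero_or_pos d with hd0 | hd0
    · subst hd0
      rw [coeff_sub, h0, sub_self]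
    · obtain ⟨k, rfl⟩ : ∃ k, d = k + 1 := ⟨d - 1, by omega⟩
      have h2 := h1 k (by omega)
      rw [coeff_sub, coeff_derivative, coeff_mul] at h2
      have h3 : ∑ x ∈ Finset.HasAntidiagonal.antidiagonal k, (Q - R).coeff x.1 * D.coeff x.2 = 0 := by
        refine Finset.sum_eq_zero fun x hx => ?_
        rw [Finset.HasAntidiagonal.mem_antidiagonal] at hx
        rw [ih x.1 (by omega) (by omega), zero_mul]
      rw [h3, sub_zero] at h2
      rcases mul_eq_zero.mp h2 with h4 | h4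
      · exact h4
      · exfalso
        have h5 : ((k + 1 : ℕ) : F) = 0 := by
          push_cast
          exact h4
        rw [CharP.cast_eq_zero_iff F p] at h5
        have := Nat.le_of_dvd (by omega) h5
        omega

/-- **Equality of the local factors**: if `e ≤ p` and for every `1 ≤ k < e` either `S_k = 0` or
the `k`-th power sums of `I` and `J` agree, then `G_I ≡ G_J mod X^e`. -/
theorem GI_congr (p : ℕ) [Fact p.Prime] (I J : Finset ℕ) (e : ℕ) (he : e ≤ p)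
    (h : ∀ k, 1 ≤ k → k < e → SS p k = 0 ∨ ∑ n ∈ I, n ^ k = ∑ n ∈ J, n ^ k) :
    X ^ e ∣ GI p I - GI p J := by
  classical
  have hform : ∀ I : Finset ℕ, GI p I = ∏ x ∈ I ×ˢ Finset.Icc 1 ((p - 1) / 2),
      (1 + C ((x.1 : ZMod p) * ((x.2 : ZMod p)⁻¹)) * X) := by
    intro I
    rw [GI, Finset.prod_product]
    refine Finset.prod_congr rfl fun n _ => ?_
    rw [gg, prod_comp]
    refine Finset.prod_congr rfl fun j _ => ?_
    simp only [add_comp, one_comp, mul_comp, C_comp, X_comp, C_mul, map_natCast]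
    ring
  have hpow : ∀ (I : Finset ℕ) (k : ℕ), ∑ x ∈ I ×ˢ Finset.Icc 1 ((p - 1) / 2),
      ((x.1 : ZMod p) * ((x.2 : ZMod p)⁻¹)) ^ k = ((∑ n ∈ I, n ^ k : ℕ) : ZMod p) * SS p k := by
    intro I k
    rw [Finset.sum_product, SS]
    push_cast
    rw [Finset.sum_mul_sum]
    refine Finset.sum_congr rfl fun n _ => Finset.sum_congr rfl fun j _ => ?_
    rw [mul_pow]
  set D : (ZMod p)[X] := ∑ k ∈ Finset.range (e - 1),
    C ((-1) ^ k * (((∑ n ∈ I, n ^ (k + 1) : ℕ) : ZMod p) * SS p (k + 1))) * X ^ k with hD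
  have hDJ : D = ∑ k ∈ Finset.range (e - 1),
      C ((-1) ^ k * (((∑ n ∈ J, n ^ (k + 1) : ℕ) : ZMod p) * SS p (k + 1))) * X ^ k := by
    rw [hD]
    refine Finset.sum_congr rfl fun k hk => ?_
    rw [Finset.mem_range] at hk
    rcases h (k + 1) (by omega) (by omega) with h1 | h1
    · rw [h1, mul_zero, mul_zero, mul_zero, mul_zero]
    · rw [h1]
  refine congr_of_logder p e he _ _ D ?_ ?_ ?_
  · rw [GI_coeff_zero, GI_coeff_zero]
  · have h1 := logder (I ×ˢ Finset.Icc 1 ((p - 1) / 2))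
      (fun x => ((x.1 : ZMod p) * ((x.2 : ZMod p)⁻¹))) (e - 1)
    simp_rw [hpow] at h1
    rw [← hform] at h1
    exact h1
  · have h1 := logder (J ×ˢ Finset.Icc 1 ((p - 1) / 2))
      (fun x => ((x.1 : ZMod p) * ((x.2 : ZMod p)⁻¹))) (e - 1)
    simp_rw [hpow] at h1
    rw [← hform, ← hDJ] at h1
    exact h1

/-- the even power sums vanish: `S_k = 0` for even `k`, `0 < k < p - 1` -/
theorem SS_even (p : ℕ) [hp : Fact p.Prime] (h2 : p ≠ 2) (k : ℕ) (hk : Even k) (hk0 : 0 < k)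
    (hkp : k < p - 1) : SS p k = 0 := by
  have hodd : 2 * ((p - 1) / 2) + 1 = p := by
    rcases hp.out.eq_two_or_odd' with h | h
    · exact absurd h h2
    · obtain ⟨m, hm⟩ := h
      omega
  have hneg : ∀ j ∈ Finset.Icc 1 ((p - 1) / 2),
      (((p - j : ℕ) : ZMod p)⁻¹) ^ k = (((j : ℕ) : ZMod p)⁻¹) ^ k := by
    intro j hj
    rw [Finset.mem_Icc] at hj
    have h3 : ((p - j : ℕ) : ZMod p) = -(j : ZMod p) := by
      rw [Nat.cast_sub (by omega), CharP.cast_eq_zero, zero_sub]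
    rw [h3, inv_neg, hk.neg_pow]
  have h4 : ∑ j ∈ Finset.Icc 1 (p - 1), (((j : ℕ) : ZMod p)⁻¹) ^ k = SS p k + SS p k := by
    have h5 : Finset.Icc 1 (p - 1) = Finset.Icc 1 ((p - 1) / 2) ∪
        (Finset.Icc 1 ((p - 1) / 2)).image (fun j => p - j) := by
      ext x
      simp only [Finset.mem_Icc, Finset.mem_union, Finset.mem_image]
      constructor
      · intro hx
        by_cases hx2 : x ≤ (p - 1) / 2
        · exact Or.inl ⟨hx.1, hx2⟩
        · exact Or.inr ⟨p - x, ⟨by omega, by omega⟩, by omega⟩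
      · rintro (hx | ⟨y, hy, rfl⟩)
        · omega
        · omega
    have h6 : Disjoint (Finset.Icc 1 ((p - 1) / 2))
        ((Finset.Icc 1 ((p - 1) / 2)).image (fun j => p - j)) := by
      rw [Finset.disjoint_left]
      intro x hx hx2
      rw [Finset.mem_image] at hx2
      obtain ⟨y, hy, hyx⟩ := hx2
      rw [Finset.mem_Icc] at hx hy
      omega
    rw [h5, Finset.sum_union h6, Finset.sum_image, SS]
    · congr 1
      exact Finset.sum_congr rfl hneg
    · intro x hx y hy hxy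
      have hx' := Finset.mem_Icc.mp hx
      have hy' := Finset.mem_Icc.mp hy
      simp only at hxy
      omega
  have h7 : ∑ j ∈ Finset.Icc 1 (p - 1), (((j : ℕ) : ZMod p)⁻¹) ^ k = 0 := by
    have h8 : ∑ x : (ZMod p)ˣ, ((x : ZMod p)) ^ k = 0 := by
      have := FiniteField.sum_pow_units (ZMod p) k
      rw [this, if_neg]
      rw [ZMod.card p]
      intro hd
      have := Nat.le_of_dvd hk0 hd
      omega
    have h9 : ∑ x : (ZMod p)ˣ, ((x : ZMod p)⁻¹) ^ k = 0 := by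
      rw [← h8]
      refine Fintype.sum_equiv (Equiv.inv _) _ _ fun x => ?_
      rw [Equiv.inv_apply, Units.val_inv_eq_inv_val]
    rw [← h9]
    symm
    refine Finset.sum_bij' (fun (x : (ZMod p)ˣ) _ => ((x : ZMod p)).val)
      (fun j hj => Units.mk0 (j : ZMod p) ?_) ?_ ?_ ?_ ?_ ?_
    · intro h0
      rw [Finset.mem_Icc] at hj
      have := (ZMod.natCast_eq_zero_iff j p).mp h0
      have := Nat.le_of_dvd (by omega) this
      have := hp.out.two_le
      omega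
    · intro x _
      rw [Finset.mem_Icc]
      have h10 : (x : ZMod p).val ≠ 0 := by
        rw [Ne, ZMod.val_eq_zero]
        exact x.ne_zero
      have := ZMod.val_lt (x : ZMod p)
      omega
    · intro j hj
      exact Finset.mem_univ _
    · intro x _
      ext
      simp
    · intro j hj
      rw [Finset.mem_Icc] at hj
      simp only [Units.val_mk0]
      rw [ZMod.val_natCast, Nat.mod_eq_of_lt]
      have := hp.out.two_le
      omega
    · intro x _
      rw [ZMod.natCast_zmod_val]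
  rw [h4, ← two_mul] at h7
  rcases mul_eq_zero.mp h7 with h8 | h8
  · exfalso
    have h9 : ((2 : ℕ) : ZMod p) = 0 := by exact_mod_cast h8
    have := (ZMod.natCast_eq_zero_iff 2 p).mp h9
    have := (Nat.prime_dvd_prime_iff_eq hp.out Nat.prime_two).mp this
    exact h2 this
  · exact h8

end H8FD
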